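import Pool.Agent.Helper7.CogP.Final

set_option autoImplicit false

namespace Pool.Agent.Results.MP_b03ea0_co.PSpaceHard

open Pool.Agent.Helper7.Cog Pool.Agent.Helper7.CogP Pool.Agent.Helper86 Pool.Agent.Helper87.Alg

/-- Deciding whether `γ_MB'(G) ≥ k`, and deciding whether `γ_MB(G) ≥ k`, are PSPACE-hard for
cographs `G`, even for cographs without induced `C₄` and without `K₅` on which Dominator wins; and
a polynomial time algorithm that computes one of the two numbers for these cographs would put every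
problem of PSPACE (and of NP) into P. -/
theorem result :
    (∀ L : Set (List Bool), NP.InNP L ∨ InPSPACE L →
      ReducesTo L instEnc {I | Small I.G ∧ gammaMBS I.G ≠ ⊤} {I | (I.k : ℕ∞) ≤ gammaMBS I.G}) ∧
    (∀ L : Set (List Bool), NP.InNP L ∨ InPSPACE L →
      ReducesTo L instEnc {I | Small I.G ∧ gammaMB I.G ≠ ⊤} {I | (I.k : ℕ∞) ≤ gammaMB I.G}) ∧
    ((PolyTimeOn {G | Small G.2 ∧ gammaMBS G.2 ≠ ⊤} (fun G => gammaMBS G.2) ∨
      PolyTimeOn {G | Small G.2 ∧ gammaMB G.2 ≠ ⊤} (fun G => gammaMB G.2)) →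
        ∀ L : Set (List Bool), NP.InNP L ∨ InPSPACE L → InP L) :=
  ⟨red_S, red_D, fun h => h.elim algQ_S algQ_D⟩

end Pool.Agent.Results.MP_b03ea0_co.PSpaceHard
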